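import Pool.Agent.T2h42.AP.All

/-!
# MP_2c7cbe_co, Q1: there is no all-purpose polygonal tile (Grünbaum–Shephard)

For every polygon `P`, at least one of the two wallpaper groups p4m and p6m is not isomorphic to the
symmetry group of any monohedral tiling with prototile `P`.
-/

set_option autoImplicit false

open Set

namespace Pool.Agent.Results.MP_2c7cbe_co.NoAllPurposeTile

/-- Polygons: compact sets which are the closure of their connected (nonempty) interior and whose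
frontier is contained in a finite union of segments. By the Jordan curve theorem every compact set
bounded by a simple closed polygonal curve is one (polygons with holes are allowed, too). -/
structure IsPolygon (P : Set ℂ) : Prop where
  compact : IsCompact P
  connected : IsConnected (interior P)
  regular : P ⊆ closure (interior P)
  sides : ∃ s : Finset (ℂ × ℂ), frontier P ⊆ ⋃ q ∈ s, segment ℝ q.1 q.2

/-- `T` is a monohedral tiling of the plane with prototile `P` (reflected copies are allowed). -/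
def IsTiling (P : Set ℂ) (T : Set (Set ℂ)) : Prop :=
  (∀ A ∈ T, ∃ g : ℂ ≃ᵢ ℂ, A = g '' P) ∧ ⋃₀ T = univ ∧
    T.Pairwise (fun A B => Disjoint (interior A) (interior B))

/-- The symmetry group of `T`: the isometries `g` such that `g` and `g⁻¹` map every tile of `T` onto
a tile of `T`. -/
def Sym (T : Set (Set ℂ)) : Subgroup (ℂ ≃ᵢ ℂ) where
  carrier := {g | (∀ A ∈ T, (g : ℂ ≃ᵢ ℂ) '' A ∈ T) ∧ ∀ A ∈ T, (g⁻¹ : ℂ ≃ᵢ ℂ) '' A ∈ T}
  one_mem' := by
    constructor <;> intro A hA <;> simpa using hA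
  mul_mem' := by
    rintro g h ⟨hg, hg'⟩ ⟨hh, hh'⟩
    constructor
    · intro A hA
      have := hg _ (hh A hA)
      rw [image_image] at this
      exact this
    · intro A hA
      have := hh' _ (hg' A hA)
      rw [image_image] at this
      rw [mul_inv_rev]
      exact this
  inv_mem' := by
    rintro g ⟨hg, hg'⟩
    refine ⟨hg', ?_⟩
    rw [inv_inv]
    exact hg

/-- Wallpaper groups (plane crystallographic groups): the images of some bounded set under the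
elements of `G` cover the plane, and every point `p` has a positive distance from the other points of
its orbit. -/
def IsWallpaper (G : Subgroup (ℂ ≃ᵢ ℂ)) : Prop :=
  (∃ B : Set ℂ, Bornology.IsBounded B ∧ ∀ z : ℂ, ∃ g ∈ G, ∃ w ∈ B, g w = z) ∧
    ∀ p : ℂ, ∃ δ > 0, ∀ g ∈ G, g p ≠ p → δ ≤ dist p (g p)

/-- `P` realizes the (isomorphism) type of `G`: the symmetry group of some monohedral tiling with
prototile `P` is isomorphic to `G`. -/
def Realizes (P : Set ℂ) (G : Subgroup (ℂ ≃ᵢ ℂ)) : Prop :=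
  ∃ T : Set (Set ℂ), IsTiling P T ∧ Nonempty (Sym T ≃* G)

/-- `G` is the wallpaper group p4m: all maps `z ↦ u z + l` and `z ↦ u conj z + l` with `u` a fourth
root of unity and `l` a Gaussian integer. -/
def IsP4m (G : Subgroup (ℂ ≃ᵢ ℂ)) : Prop :=
  ∀ g : ℂ ≃ᵢ ℂ, g ∈ G ↔ ∃ u : ℂ, u ^ 4 = 1 ∧ ∃ a b : ℤ,
    (∀ z, g z = u * z + (a + b * Complex.I)) ∨
    (∀ z, g z = u * (starRingEnd ℂ) z + (a + b * Complex.I))

/-- `e^{iπ/3}` -/
noncomputable def e : ℂ := ⟨1 / 2, Real.sqrt 3 / 2⟩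

/-- `G` is the wallpaper group p6m: all maps `z ↦ u z + l` and `z ↦ u conj z + l` with `u` a sixth
root of unity and `l` in the hexagonal lattice `ℤ + ℤ e^{iπ/3}`. -/
def IsP6m (G : Subgroup (ℂ ≃ᵢ ℂ)) : Prop :=
  ∀ g : ℂ ≃ᵢ ℂ, g ∈ G ↔ ∃ u : ℂ, u ^ 6 = 1 ∧ ∃ a b : ℤ,
    (∀ z, g z = u * z + (a + b * e)) ∨ (∀ z, g z = u * (starRingEnd ℂ) z + (a + b * e))

theorem isTiling_iff (P : Set ℂ) (T : Set (Set ℂ)) : IsTiling P T ↔ H74R2.WT.IsTiling P T :=
  ⟨fun h => ⟨h.1, h.2.1, h.2.2⟩, fun h => ⟨h.1, h.2, h.3⟩⟩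

theorem sym_eq (T : Set (Set ℂ)) : Sym T = H74R2.WT.Sym T := rfl

theorem seg_ln (x y : ℂ) : ∃ q : Circle × ℝ, segment ℝ x y ⊆ T2h42.AP.ln q := by
  by_cases hxy : y = x
  · refine ⟨(1, x.im), ?_⟩
    rw [hxy, segment_same]
    rintro z hz
    rw [mem_singleton_iff] at hz
    show (z * (starRingEnd ℂ) ((1 : Circle) : ℂ)).im = x.im
    rw [hz]; simp
  · have hne : y - x ≠ 0 := sub_ne_zero.2 hxy
    have hn : (‖y - x‖ : ℂ) ≠ 0 := by
      rw [Ne, Complex.ofReal_eq_zero, norm_eq_zero]; exact hne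
    have h1 : ‖(y - x) / (‖y - x‖ : ℂ)‖ = 1 := by
      rw [norm_div, Complex.norm_real, norm_norm, div_self (norm_ne_zero_iff.2 hne)]
    refine ⟨(⟨(y - x) / (‖y - x‖ : ℂ), mem_sphere_zero_iff_norm.2 h1⟩,
      (x * (starRingEnd ℂ) ((y - x) / (‖y - x‖ : ℂ))).im), ?_⟩
    rw [segment_eq_image']
    rintro _ ⟨t, -, rfl⟩
    show ((x + t • (y - x)) * (starRingEnd ℂ) ((y - x) / (‖y - x‖ : ℂ))).im = _
    have e1 : (x + t • (y - x)) * (starRingEnd ℂ) ((y - x) / (‖y - x‖ : ℂ)) =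
        x * (starRingEnd ℂ) ((y - x) / (‖y - x‖ : ℂ)) + ((t * ‖y - x‖ : ℝ) : ℂ) := by
      have e2 : (y - x) * (starRingEnd ℂ) (y - x) = (‖y - x‖ : ℂ) * (‖y - x‖ : ℂ) := by
        rw [Complex.mul_conj, Complex.normSq_eq_norm_sq]
        push_cast
        ring
      rw [map_div₀, Complex.conj_ofReal, Complex.real_smul]
      push_cast
      field_simp
      linear_combination (t : ℂ) * e2
    rw [e1, Complex.add_im, Complex.ofReal_im, add_zero]

theorem poly_of {P : Set ℂ} (h : IsPolygon P) : T2h42.AP.Poly P := by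
  classical
  refine ⟨h.compact, h.connected, h.regular, ?_⟩
  obtain ⟨s, hs⟩ := h.sides
  choose f hf using seg_ln
  refine ⟨s.image fun q => f q.1 q.2, fun z hz => ?_⟩
  obtain ⟨q, hq⟩ := mem_iUnion.1 (hs hz)
  obtain ⟨hq1, hq2⟩ := mem_iUnion.1 hq
  exact T2h42.AP.mem_NL.2 ⟨_, Finset.mem_image_of_mem _ hq1, hf _ _ hq2⟩

open H74R2.WT.N34 in
theorem lat4 {u : ℂ} (hu : u ^ 4 = 1) : u ∈ L4 := by
  rcases units4 hu with rfl | rfl | rfl | rfl
  · exact one_mem _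
  · exact neg_mem (one_mem _)
  · exact dat4.mem
  · exact neg_mem dat4.mem

open H74R2.WT.N34 in
theorem isP4m_G4 : IsP4m T2h42.AP.G4 := by
  intro g
  constructor
  · rintro (⟨u, -, hu, l, ⟨a, b, hl⟩, hg⟩ | ⟨-, u, -, hu, l, ⟨a, b, hl⟩, hg⟩)
    · exact ⟨u, hu, a, b, Or.inl fun z => by rw [hg, hl]⟩
    · exact ⟨u, hu, a, b, Or.inr fun z => by rw [hg, hl, add_zero]⟩
  · rintro ⟨u, hu, a, b, hg | hg⟩
    · exact Or.inl ⟨u, lat4 hu, hu, _, ⟨a, b, rfl⟩, hg⟩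
    · exact Or.inr ⟨trivial, u, lat4 hu, hu, _, ⟨a, b, rfl⟩, fun z => by rw [hg, add_zero]⟩

open H74R2.WT.N34 in
theorem lat6 {u : ℂ} (hu : u ^ 6 = 1) : u ∈ L3 := by
  have h := e3_sq
  simp only [Int.cast_one, one_mul] at h
  have h1 : (u - 1) * ((u + 1) * ((u - H74R2.WT.e3) * ((u + H74R2.WT.e3) *
      ((u - (H74R2.WT.e3 - 1)) * (u + (H74R2.WT.e3 - 1)))))) = 0 := by
    have hE : (u - 1) * ((u + 1) * ((u - H74R2.WT.e3) * ((u + H74R2.WT.e3) *
      ((u - (H74R2.WT.e3 - 1)) * (u + (H74R2.WT.e3 - 1)))))) =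
      (u ^ 2 - 1) * ((u ^ 2 - H74R2.WT.e3 * H74R2.WT.e3) *
        (u ^ 2 - (H74R2.WT.e3 * H74R2.WT.e3 - 2 * H74R2.WT.e3 + 1))) := by ring
    rw [hE, h]
    linear_combination hu - (u ^ 2 - 1) * h
  have me : H74R2.WT.e3 ∈ L3 := ⟨0, 1, by simp⟩
  rcases mul_eq_zero.1 h1 with h2 | h2
  · rw [sub_eq_zero.1 h2]; exact one_mem _
  rcases mul_eq_zero.1 h2 with h2 | h2
  · rw [eq_neg_of_add_eq_zero_left h2]; exact neg_mem (one_mem _)
  rcases mul_eq_zero.1 h2 with h2 | h2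
  · rw [sub_eq_zero.1 h2]; exact me
  rcases mul_eq_zero.1 h2 with h2 | h2
  · rw [eq_neg_of_add_eq_zero_left h2]; exact neg_mem me
  rcases mul_eq_zero.1 h2 with h2 | h2
  · rw [sub_eq_zero.1 h2]; exact sub_mem me (one_mem _)
  · rw [eq_neg_of_add_eq_zero_left h2]; exact neg_mem (sub_mem me (one_mem _))

open H74R2.WT.N34 in
theorem isP6m_G6 : IsP6m T2h42.AP.G6 := by
  intro g
  constructor
  · rintro (⟨u, -, hu, l, ⟨a, b, hl⟩, hg⟩ | ⟨-, u, -, hu, l, ⟨a, b, hl⟩, hg⟩)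
    · exact ⟨u, hu, a, b, Or.inl fun z => by rw [hg, hl]; rfl⟩
    · exact ⟨u, hu, a, b, Or.inr fun z => by rw [hg, hl, add_zero]; rfl⟩
  · rintro ⟨u, hu, a, b, hg | hg⟩
    · exact Or.inl ⟨u, lat6 hu, hu, _, ⟨a, b, rfl⟩, hg⟩
    · exact Or.inr ⟨trivial, u, lat6 hu, hu, _, ⟨a, b, rfl⟩, fun z => by rw [hg, add_zero]; rfl⟩

/-- **There is no all-purpose polygonal tile.** First part: the wallpaper groups p4m and p6m are not
both realized by the same polygon. Second part: every polygon misses a wallpaper group. -/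
theorem result :
    (∃ G4 G6 : Subgroup (ℂ ≃ᵢ ℂ), IsP4m G4 ∧ IsP6m G6 ∧ IsWallpaper G4 ∧ IsWallpaper G6 ∧
      ∀ P : Set ℂ, IsPolygon P → ¬ (Realizes P G4 ∧ Realizes P G6)) ∧
    (∀ P : Set ℂ, IsPolygon P → ∃ G : Subgroup (ℂ ≃ᵢ ℂ), IsWallpaper G ∧ ¬ Realizes P G) := by
  have h4 : IsWallpaper T2h42.AP.G4 := H74R2.WT.N34.wall H74R2.WT.N34.dat4 True
  have h6 : IsWallpaper T2h42.AP.G6 :=
    H74R2.WT.N34.wall (H74R2.WT.N34.dat3 (n := 6) (by norm_num)) True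
  have key : ∀ P : Set ℂ, IsPolygon P →
      ¬ (Realizes P T2h42.AP.G4 ∧ Realizes P T2h42.AP.G6) := by
    rintro P hP ⟨⟨T, hT, e4⟩, ⟨T', hT', e6⟩⟩
    exact T2h42.AP.main P (poly_of hP) T T' ((isTiling_iff P T).1 hT) ((isTiling_iff P T').1 hT')
      e4 e6
  refine ⟨⟨_, _, isP4m_G4, isP6m_G6, h4, h6, key⟩, fun P hP => ?_⟩
  by_contra hcon
  push Not at hcon
  exact key P hP ⟨hcon _ h4, hcon _ h6⟩

end Pool.Agent.Results.MP_2c7cbe_co.NoAllPurposeTile
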